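import Pool.Agent.V5helper74.SR.E14

/-!
Classical links bounding discs in thickened 3-manifolds such that each double curve of the projection
passes through few triple points. A movie whose diagrams are arbitrary signed Gauss codes (diagrams of
virtual links, that is, of links in thickened closed oriented surfaces up to stabilisation) describes
a surface in the product of a compact oriented 3-manifold and an interval, which need not be the
4-ball. The triple points of its projection to the 3-manifold are the Reidemeister moves of type III in
its movie. The movies go from the link into the 4-manifold. Every crossing belongs to a double curve
of the projection (an immersed arc or circle; at a triple point three branches of double curves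
cross), named by its colour. The names of the double curves with branch points are even; the names of
the other ones are arbitrary.
-/

namespace Pool.Agent.Results.MP_752436_gt.FewTriplePointsOnDoubleCurves

open Pool.Agent.Y468.SR Pool.Agent.Y874.TP Pool.Agent.R800.TP Pool.Agent.V5helper74.SR

/-- Let there be a movie of classical links without births from the classical link with Gauss code `L`
to the link `D`, and let `D` bound disjoint discs by an arbitrary movie of virtual links with births
(`VMovie`, the diagrams need not be planar). Let the crossings in this movie be coloured by the double
curves of the projection (or unions of double curves); this means that the colours are kept by all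
moves and that moves of type I take place at crossings of even colour only. Let `Z` be a set of colours
which do not occur in `D` (`hZ`); `T` is the list of the triples of colours at the triple points none
of whose colours belongs to `Z` (at the other triple points two or three colours belong to `Z`). If
each colour `k` occurs at most at one of these triple points, or is odd and occurs at most twice in the
triples (`h₃`), then `L` bounds disjoint ribbon discs in the 4-ball, i.e. discs given by a movie of
classical links without births. The components of the set of double points may contain arbitrarily
many triple points. -/
theorem result (L : List (List Pass)) (hL : Classical L.zipIdx) (Z : ℕ → Prop) (D : Code)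
    (T : List (ℕ × ℕ × ℕ)) (h₁ : Movie true false L.zipIdx D) (h₂ : VMovie false Z D T)
    (hZ : ∀ p ∈ passes D, ¬Z (colour p.crossing))
    (h₃ : ∀ k, (T.filter fun t => k ∈ [t.1, t.2.1, t.2.2]).length ≤ 1 ∨
      (k % 2 = 1 ∧ (T.flatMap fun t => [t.1, t.2.1, t.2.2]).count k ≤ 2)) :
    Movie true false L.zipIdx [] := by
  have hn : (L.zipIdx.map Prod.snd).Nodup := by
    rw [List.zipIdx_map_snd]
    exact List.nodup_range'
  exact h₁.trans (vribbon_of_tame (classical_of_movie h₁ hL) h₂ hZ (nodup_movie h₁ hn) h₃)

end Pool.Agent.Results.MP_752436_gt.FewTriplePointsOnDoubleCurves
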