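import Pool.Agent.V5helper74.SR.G9

/-!
Classical links bounding discs in thickened 3-manifolds with arbitrarily many triple points such that
no three curves of the preimage of the double curves cross one another. A movie whose diagrams are
arbitrary signed Gauss codes (diagrams of virtual links, that is, of links in thickened closed
oriented surfaces up to stabilisation) describes a surface in the product of a compact oriented
3-manifold and an interval, which need not be the 4-ball. The triple points of its projection to the
3-manifold are the Reidemeister moves of type III in its movie. The movies go from the link into the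
4-manifold. Every crossing belongs to a double curve of the projection (an immersed arc or circle),
named by its colour; a colour may also be the name of a union of double curves. The colours of the
double curves with branch points are even. `curve k true` and `curve k false` are the names of the
curves in the surface lying over the double curve with colour `k` in the upper and in the lower sheet
(which are one curve, if the colour is even).
-/

namespace Pool.Agent.Results.MP_752436_gt.NoTriangles

open Pool.Agent.Y468.SR Pool.Agent.Y874.TP Pool.Agent.R800.TP Pool.Agent.V5helper74.SR

/-- Let there be a movie of classical links without births from the classical link with Gauss code `L`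
to the link `D`, and let `D` bound disjoint discs by an arbitrary movie of virtual links with births
(`VMovie`, the diagrams need not be planar), whose crossings are coloured by the double curves of the
projection or by unions of double curves. Let `Z` be a set of colours which do not occur in `D`
(`hZ`); `T` is the list of the triples of colours (of the double curves of the top and the middle, of
the top and the bottom, and of the middle and the bottom sheet) at the triple points none of whose
colours belongs to `Z` (at the other triple points two or three colours belong to `Z`). Consider the
curves of the preimage of the double curves and their crossings at the preimages of the triple points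
in `T` (`crs`). Suppose that none of them crosses itself and no three of them cross one another
pairwise (`h₃`, for `p = q = r` this means that `p` does not cross itself), that two of the three
colours at a triple point determine the third (`h₄`), and that two double curves meeting at a triple
point in the top sheet do not meet at a triple point in the top sheet with exchanged roles, similarly
for the bottom sheet (`h₅`). Then `L` bounds disjoint ribbon discs in the 4-ball, i.e. discs given by a
movie of classical links without births. There is no bound on the number of the triple points, on the
number of crossings of two curves, or on the number of branch points. -/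
theorem result (L : List (List Pass)) (hL : Classical L.zipIdx) (Z : ℕ → Prop) (D : Code)
    (T : List (ℕ × ℕ × ℕ)) (h₁ : Movie true false L.zipIdx D) (h₂ : VMovie false Z D T)
    (hZ : ∀ p ∈ passes D, ¬Z (colour p.crossing))
    (h₃ : ∀ p q r, s(p, q) ∈ T.flatMap crs → s(q, r) ∈ T.flatMap crs → s(r, p) ∉ T.flatMap crs)
    (h₄ : ∀ t ∈ T, ∀ t' ∈ T, (t.1 = t'.1 ∧ t.2.1 = t'.2.1) ∨ (t.1 = t'.1 ∧ t.2.2 = t'.2.2) ∨
      (t.2.1 = t'.2.1 ∧ t.2.2 = t'.2.2) → t = t')
    (h₅ : ∀ t ∈ T, ∀ t' ∈ T, ¬(t.1 = t'.2.1 ∧ t.2.1 = t'.1) ∧
      ¬(t.2.1 = t'.2.2 ∧ t.2.2 = t'.2.1)) :
    Movie true false L.zipIdx [] := by
  have hn : (L.zipIdx.map Prod.snd).Nodup := by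
    rw [List.zipIdx_map_snd]
    exact List.nodup_range'
  refine h₁.trans (vribbon_of_cnd (classical_of_movie h₁ hL) h₂ hZ (nodup_movie h₁ hn)
    ⟨fun t t' h h' a b => ?_, fun t t' h h' a b => ?_, fun t t' h h' a b => ?_,
      fun t t' h h' a b => (h₅ t h t' h').1 ⟨a, b⟩, fun t t' h h' a b => (h₅ t h t' h').2 ⟨a, b⟩,
      fun t₁ t₂ t₃ a₁ a₂ a₃ p q r b₁ b₂ b₃ => h₃ p q r (List.mem_flatMap.2 ⟨t₁, a₁, b₁⟩)
        (List.mem_flatMap.2 ⟨t₂, a₂, b₂⟩) (List.mem_flatMap.2 ⟨t₃, a₃, b₃⟩)⟩)
  · rw [h₄ t h t' h' (Or.inl ⟨a, b⟩)]
  · rw [h₄ t h t' h' (Or.inr (Or.inl ⟨a, b⟩))]
  · rw [h₄ t h t' h' (Or.inr (Or.inr ⟨a, b⟩))]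

end Pool.Agent.Results.MP_752436_gt.NoTriangles
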