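import Pool.Agent.V5helper74.SR.B8

/-!
Classical links bounding discs in thickened 3-manifolds whose projection has at most two triple points
on each component of the double point set meeting the link. A movie whose diagrams are arbitrary
signed Gauss codes (diagrams of virtual links, that is, of links in thickened closed oriented surfaces
up to stabilisation) describes a surface in the product of a compact oriented 3-manifold and an
interval, which need not be the 4-ball. The triple points of its projection to the 3-manifold are the
Reidemeister moves of type III in its movie. The movies go from the link into the 4-manifold. Every
crossing belongs to a connected component of the set of double points (the union of the double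
curves), named by its colour. The names of components with branch points are even; the names of the
other ones are arbitrary.
-/

namespace Pool.Agent.Results.MP_752436_gt.TwoTriplePointsEach

open Pool.Agent.Y468.SR Pool.Agent.Y874.TP Pool.Agent.R800.TP Pool.Agent.V5helper74.SR

/-- Let there be a movie of classical links without births from the classical link with Gauss code `L`
to the link `D`, and let `D` bound disjoint discs by an arbitrary movie of virtual links with births
(`VMovie`, the diagrams need not be planar). Let the crossings in this movie be coloured by the
components of the double point set of the projection; this means that the colours are kept by all
moves and that the three crossings at each triple point have the same colour (`h₃`). Let `Z` be a set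
of components which do not meet `D` (`hZ`); `T` is the list of the triples of colours at the triple
points not in the components belonging to `Z`. If each component not in `Z` contains at most two
triple points (`h₄`), then `L` bounds disjoint ribbon discs in the 4-ball, i.e. discs given by a movie
of classical links without births. The number of components and of branch points is arbitrary, the
double curves may pass through the two triple points in any way, and there is no condition on the
components which do not meet `D`. -/
theorem result (L : List (List Pass)) (hL : Classical L.zipIdx) (Z : ℕ → Prop) (D : Code)
    (T : List (ℕ × ℕ × ℕ)) (h₁ : Movie true false L.zipIdx D) (h₂ : VMovie false Z D T)
    (hZ : ∀ p ∈ passes D, ¬Z (colour p.crossing))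
    (h₃ : ∀ t ∈ T, t.2.1 = t.1 ∧ t.2.2 = t.1) (h₄ : ∀ k, (T.map Prod.fst).count k ≤ 2) :
    Movie true false L.zipIdx [] := by
  have hn : (L.zipIdx.map Prod.snd).Nodup := by
    rw [List.zipIdx_map_snd]
    exact List.nodup_range'
  exact h₁.trans (vribbon_of_two (classical_of_movie h₁ hL) h₂ hZ (nodup_movie h₁ hn) h₃ h₄)

end Pool.Agent.Results.MP_752436_gt.TwoTriplePointsEach
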