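import Pool.Agent.V5helper74.SR.VMain

/-!
Classical links bounding discs in thickened 3-manifolds. A movie whose diagrams are arbitrary signed
Gauss codes (diagrams of virtual links, that is, of links in thickened closed oriented surfaces up to
stabilisation) describes a surface in the product of a compact oriented 3-manifold and an interval,
which need not be the 4-ball. In the projection of the surface to the 3-manifold, the triple points
are the Reidemeister moves of type III in its movie. The movies here go from the link into the
4-manifold. Every crossing belongs to a double curve of the projection, named by its colour;
`curve k true` and `curve k false` are the names of the two curves in the surface lying over the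
double curve with colour `k` (which are one curve, if the double curve has branch points, that is, if
the colour is even).
-/

namespace Pool.Agent.Results.MP_752436_gt.VirtualEvenCrossings

open Pool.Agent.Y468.SR Pool.Agent.Y874.TP Pool.Agent.R800.TP Pool.Agent.V5helper74.SR

/-- Let there be a movie of classical links without births from the classical link with Gauss code `L`
to the link `D`, and let `D` bound disjoint discs by a movie of virtual links with births (`VMovie`,
the diagrams need not be planar). Let `Z` be a set of double curves which do not meet `D` (`hZ`) such
that through each triple point there pass at least two or none of them; `T` is the list of the triple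
points of the second kind. Let the double curves be named so that every curve of the preimage has at
most two ends on `D` (`h₃`), and suppose that any two different curves of the preimage having ends on
`D` cross each other an even number of times at the triple points of the second kind (`h₄`). Then `L`
bounds disjoint ribbon discs in the 4-ball, i.e. discs given by a movie of classical links without
births. -/
theorem result (L : List (List Pass)) (hL : Classical L.zipIdx) (Z : ℕ → Prop) (D : Code)
    (T : List (ℕ × ℕ × ℕ)) (h₁ : Movie true false L.zipIdx D) (h₂ : VMovie false Z D T)
    (hZ : ∀ p ∈ passes D, ¬Z (colour p.crossing))
    (h₃ : ∀ κ : ℕ × Bool, ((passes D).map ends).count κ ≤ 2)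
    (h₄ : ∀ p ∈ passes D, ∀ q ∈ passes D, ends p ≠ ends q →
      Even ((T.flatMap crs).count s(ends p, ends q))) :
    Movie true false L.zipIdx [] := by
  have hn : (L.zipIdx.map Prod.snd).Nodup := by
    rw [List.zipIdx_map_snd]
    exact List.nodup_range'
  exact h₁.trans (veven_ribbon (classical_of_movie h₁ hL) h₂ hZ (nodup_movie h₁ hn) h₃ h₄)

end Pool.Agent.Results.MP_752436_gt.VirtualEvenCrossings
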